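import Pool.Agent.J6H54.CH.Stm

/-!
# CH-06: collecting the excursions (adapted from J6H68/CG/M06)
-/

set_option autoImplicit false

namespace Pool.Agent.J6H98.CH06

open Pool.Agent.J6H54.CH

variable {Λ : Type} [AddCommGroup Λ] {σ : Λ ≃ₗ[ℤ] Λ} {T : Finset (Λ × ℤ)} {p q : Λ → ℝ} {R D : ℕ}

theorem vis_append (j : ℤ) (R : ℕ) (s : ℤ) (u v : List (Λ × ℤ)) :
    vis j R s (u ++ v) =
      ((Finset.range u.length).filter (fun i => (s + ht (u.take i) - j).natAbs ≤ R)).card +
        vis j R (s + ht u) v := by
  unfold vis
  rw [Finset.card_filter, Finset.card_filter, Finset.card_filter, List.length_append,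
    Nat.add_assoc, Finset.sum_range_add]
  congr 1
  · refine Finset.sum_congr rfl fun i hi => ?_
    have h := Finset.mem_range.1 hi
    rw [List.take_append_of_le_length h.le]
  · refine Finset.sum_congr rfl fun i hi => ?_
    rw [List.take_append, List.take_of_length_le (by omega), Nat.add_sub_cancel_left, ht_append,
      add_assoc]

theorem vis_append_av {j : ℤ} {s : ℤ} {u : List (Λ × ℤ)} (h : Av j R s u) (v : List (Λ × ℤ)) :
    vis j R s (u ++ v) = vis j R (s + ht u) v := by
  rw [vis_append, Finset.filter_false_of_mem, Finset.card_empty, zero_add]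
  intro i hi
  have h1 := h i (Finset.mem_range.1 hi).le
  omega

theorem vis_append_le (j : ℤ) (R : ℕ) (s : ℤ) (u v : List (Λ × ℤ)) :
    vis j R s (u ++ v) ≤ u.length + vis j R (s + ht u) v := by
  rw [vis_append]
  have h := Finset.card_filter_le (Finset.range u.length)
    (fun i => (s + ht (u.take i) - j).natAbs ≤ R)
  rw [Finset.card_range] at h
  omega

theorem vis_le (j : ℤ) (R : ℕ) (s : ℤ) (u : List (Λ × ℤ)) : vis j R s u ≤ u.length + 1 := by
  unfold vis
  have h := Finset.card_filter_le (Finset.range (u.length + 1))
    (fun i => (s + ht (u.take i) - j).natAbs ≤ R)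
  rw [Finset.card_range] at h
  exact h

/-- a path with small steps which avoids the window stays on one side -/
theorem same_side (hB : Bd σ T p q R) (j : ℤ) (o : List (Λ × ℤ)) : ∀ s : ℤ, Wd T o → Av j R s o →
    (0 < s - j → 0 < s + ht o - j) ∧ (s - j < 0 → s + ht o - j < 0) := by
  induction o with
  | nil =>
    intro s _ _
    simp
  | cons a o ih =>
    intro s hw ha
    have h0 := ha 0 (Nat.zero_le _)
    rw [List.take_zero, ht_nil, add_zero] at h0
    have h1 : Av j R (s + a.2) o := by
      intro i hi
      have h2 := ha (i + 1) (by rw [List.length_cons]; omega)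
      rw [List.take_succ_cons, ht_cons] at h2
      rw [add_assoc]
      exact h2
    have h2 := hB.ht_le a (hw a (by simp))
    have h3 := ih (s + a.2) (fun x hx => hw x (by simp [hx])) h1
    have h4 := h1 0 (Nat.zero_le _)
    rw [List.take_zero, ht_nil, add_zero] at h4
    rw [ht_cons, ← add_assoc]
    constructor
    · intro h
      exact h3.1 (by omega)
    · intro h
      exact h3.2 (by omega)

/-- the length of the contribution of an excursion with both ends near the height `c` -/
theorem len_exc (hT : Gen σ T) (hB : Bd σ T p q R) {c s : ℤ} {o : List (Λ × ℤ)} (ho : Wd T o)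
    (h1 : (s - c).natAbs ≤ R) (h2 : (s + ht o - c).natAbs ≤ R) :
    len σ T ((σ ^ (-c)) ((σ ^ s) (val σ o).1), 0) ≤ o.length + 2 * R * R := by
  have e : (((σ ^ (-c)) ((σ ^ s) (val σ o).1), 0) : Λ × ℤ) =
      mul σ (mul σ (0, s - c) (val σ o)) (0, c - (s + ht o)) := by
    apply Prod.ext
    · simp only [mul_fst, mul_snd]
      rw [map_zero, add_zero, zero_add, ← pow_add_apply]
      congr 2
      ring_nf
    · simp only [mul_snd, val_snd]
      ring
  rw [e]
  have h3 := len_mul hT (mul σ (0, s - c) (val σ o)) (0, c - (s + ht o))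
  have h4 := len_mul hT (0, s - c) (val σ o)
  have h5 := len_le (σ := σ) ho
  have h6 := len_vert hT hB (s - c)
  have h7 := len_vert hT hB (c - (s + ht o))
  have h8 : R * (s - c).natAbs ≤ R * R := Nat.mul_le_mul_left _ h1
  have h9 : R * (c - (s + ht o)).natAbs ≤ R * R := Nat.mul_le_mul_left _ (by omega)
  have h10 : 2 * R * R = R * R + R * R := by ring
  omega

/-- addition of the contributions at one side -/
theorem len_side (hT : Gen σ T) {c : ℤ} {x y : Λ} {m n : ℕ}
    (h1 : len σ T ((σ ^ (-c)) x, 0) ≤ m) (h2 : len σ T ((σ ^ (-c)) y, 0) ≤ n) :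
    len σ T ((σ ^ (-c)) (x + y), 0) ≤ m + n := by
  have h3 := len_add hT ((σ ^ (-c)) x) ((σ ^ (-c)) y) 0 0
  rw [pow_zero_apply, ← map_add, add_zero] at h3
  omega

theorem m06 (h3 : S_in) (h5 : S_split) : S_collect := by
  intro Λ _ σ T p q κ M C0 R D B hH hT hB hRD hΛ j s w hw hs1 hs2
  obtain ⟨N, hN⟩ : ∃ N, w.length = N := ⟨_, rfl⟩
  induction N using Nat.strong_induction_on generalizing s w with
  | _ N ih =>
    rcases h5 Λ T R D j s w hB.one_le hB.ht_le hw.1 hRD hs1 with ⟨e1, e2, rfl, ha, hi⟩ |
      ⟨o, t, w', rfl, ht0, ha, hso1, hso2, hin, hst1, hst2, hlen⟩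
    · -- the last part
      refine ⟨0, 0, 0, 0, 0, 0, 0, s, e1 ++ e2, hw.1, by simp, rfl, hs2,
        ?_, ?_, ?_, ?_, by omega, by omega, ?_⟩
      · rw [map_zero, hH.p_zero]; simp
      · rw [map_zero, hH.q_zero]; simp
      · rw [map_zero, len_zero]
      · rw [map_zero, len_zero]
      · rw [vis_append_av ha]
        have h1 : e2.length ≤ B := by
          refine hΛ j (s + ht e1) e2 (hw.right hT) ?_
          intro i h0 h1
          exact hi i h0 h1.le
        have h2 := vis_le j R (s + ht e1) e2
        omega
    · have hwd := hw.1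
      have ho : Wd T o := hwd.left.left
      have htw : Wd T t := hwd.left.right
      have hw' : Geo σ T w' := hw.right hT
      have htl : 0 < t.length := List.length_pos_of_ne_nil ht0
      have hlw : w'.length < N := by
        rw [← hN]
        simp only [List.length_append]
        omega
      obtain ⟨xu, xl, y, nu, nl, τ, N', ae, e, he, hval, hae, haj, hy, hy', hnu, hnl,
        hsum, hM, hvis⟩ := ih w'.length hlw (s + ht o + ht t) w' hw' hst1 hst2 rfl
      -- the contribution of `t`
      have hin3 := h3 Λ σ T p q κ M C0 R hH hB t (j - D - R) (j + D + R) (s + ht o) htw (by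
        intro i hi
        rcases Nat.eq_zero_or_pos i with rfl | h0
        · rw [List.take_zero, ht_nil, add_zero]
          omega
        · have h6 := hin i h0 hi
          omega)
      obtain ⟨ht1, ht2⟩ := hin3
      -- the sum
      have hval' : (σ ^ s) (val σ (o ++ t ++ w')).1 = (σ ^ s) (val σ o).1 +
          (σ ^ (s + ht o)) (val σ t).1 +
            (σ ^ (s + ht o + ht t)) (val σ w').1 := by
        rw [val_append_fst, val_append_fst, ht_append, pow_add_apply (s + ht o) (ht t),
          pow_add_apply s (ht o), pow_add_apply s (ht o), pow_add_apply (ht o) (ht t), map_add,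
          map_add]
      have hp : p ((σ ^ (-(j + D + R))) (y + (σ ^ (s + ht o)) (val σ t).1)) ≤
          ((τ + t.length : ℕ) : ℝ) * R := by
        rw [map_add]
        refine (hH.p_add _ _).trans ?_
        have e3 : (σ ^ (-(j + D + R))) ((σ ^ (s + ht o)) (val σ t).1) =
            (σ ^ (s + ht o - (j + D + R))) (val σ t).1 := by
          rw [← pow_add_apply]
          congr 2
          ring
        rw [e3]
        push_cast
        rw [add_mul]
        exact add_le_add hy ht1
      have hq : q ((σ ^ (-(j - D - R))) (y + (σ ^ (s + ht o)) (val σ t).1)) ≤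
          ((τ + t.length : ℕ) : ℝ) * R := by
        rw [map_add]
        refine (hH.q_add _ _).trans ?_
        have e3 : (σ ^ (-(j - D - R))) ((σ ^ (s + ht o)) (val σ t).1) =
            (σ ^ (s + ht o - (j - D - R))) (val σ t).1 := by
          rw [← pow_add_apply]
          congr 2
          ring
        rw [e3]
        push_cast
        rw [add_mul]
        exact add_le_add hy' ht2
      have hheight : ae + ht e = s + ht (o ++ t ++ w') := by
        rw [hae, ht_append, ht_append]
        ring
      have hlen' : (o ++ t ++ w').length = o.length + t.length + w'.length := by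
        simp only [List.length_append]
      have hM' : 2 * (D - R) * (N' + 1) ≤ R * (τ + t.length) := by
        rw [Nat.mul_add, Nat.mul_add, mul_one]
        exact Nat.add_le_add hM hlen
      have hvis' : vis j R s (o ++ t ++ w') ≤ (τ + t.length) + (N' + 1) + B + 1 := by
        rw [List.append_assoc, vis_append_av ha]
        have h7 := vis_append_le j R (s + ht o) t w'
        omega
      have hRM : 2 * R * R * (N' + 1) = 2 * R * R * N' + 2 * R * R := by ring
      have hside := same_side hB j o s ho ha
      rcases lt_or_gt_of_ne (show s - j ≠ 0 by omega) with hneg | hpos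
      · -- below
        have hneg' := hside.2 hneg
        have hexc := len_exc hT hB (c := j - D) (s := s) ho (by omega) (by omega)
        refine ⟨xu, xl + (σ ^ s) (val σ o).1, y + (σ ^ (s + ht o)) (val σ t).1, nu,
          nl + (o.length + 2 * R * R), τ + t.length, N' + 1, ae, e, he, ?_, hheight, haj,
          hp, hq, hnu, len_side hT hnl hexc, ?_, hM', hvis'⟩
        · rw [hval', hval]
          abel
        · rw [hlen', hRM]
          omega
      · -- above
        have hpos' := hside.1 hpos
        have hexc := len_exc hT hB (c := j + D) (s := s) ho (by omega) (by omega)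
        refine ⟨xu + (σ ^ s) (val σ o).1, xl, y + (σ ^ (s + ht o)) (val σ t).1,
          nu + (o.length + 2 * R * R), nl, τ + t.length, N' + 1, ae, e, he, ?_, hheight, haj,
          hp, hq, len_side hT hnu hexc, hnl, ?_, hM', hvis'⟩
        · rw [hval', hval]
          abel
        · rw [hlen', hRM]
          omega

end Pool.Agent.J6H98.CH06
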